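import Pool.Agent.Y425.SC6.Fin

/-!
# Five-cycle double covers containing a prescribed circuit: cutwidth at most six

The cutwidth is at most six if the vertices can be placed on a line such that at most six edges pass
over each gap. For each initial segment of the line the states of the leaving edges that extend to
it, with the pairing of these edges by the paths of the prescribed circuit and with some cuts that
guard against bridges, contain one of 516 explicit sets; this family is closed under adding a cubic
vertex unless this creates a bridge or a smaller circuit. This is checked by the kernel with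
explicit witnesses (`Pool.Agent.Y425.SC6`).
-/

set_option autoImplicit false

namespace Pool.Agent.Results.MP_7cf8d2_co.CutwidthSix

/-- The degree of `v` in the subgraph with edge set `S`. -/
def deg {V E : Type} [DecidableEq V] (ends : E → Sym2 V) (S : Finset E) (v : V) : ℕ :=
  (S.filter fun e : E => v ∈ ends e).card

/-- `S` is the edge set of an even subgraph. -/
def IsEven {V E : Type} [DecidableEq V] (ends : E → Sym2 V) (S : Finset E) : Prop :=
  ∀ v : V, Even (deg ends S v)

/-- `C` is (the edge set of) a cycle, i.e. a circuit: a nonempty even subgraph that contains no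
smaller nonempty even subgraph. -/
def IsCycle {V E : Type} [DecidableEq V] (ends : E → Sym2 V) (C : Finset E) : Prop :=
  C.Nonempty ∧ IsEven ends C ∧ ∀ S : Finset E, S ⊆ C → S.Nonempty → IsEven ends S → S = C

/-- **Theorem.** Let `G` be a finite loopless cubic multigraph, with vertices `V` and edges `E`, in
which each edge lies on a cycle. Assume that the vertices can be numbered injectively by natural
numbers such that for each `n` at most six edges join a vertex with number smaller than `n` to a
vertex with number at least `n`. Then for each cycle `C` of `G` there is a 5-cycle double cover `D`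
of `G` with `C ⊆ D 0`. -/
theorem result (V E : Type) [Fintype V] [DecidableEq V] [Fintype E] [DecidableEq E]
    (ends : E → Sym2 V) (hloop : ∀ e : E, ¬ (ends e).IsDiag)
    (hdeg : ∀ v : V, deg ends Finset.univ v = 3)
    (hbr : ∀ e : E, ∃ S : Finset E, IsCycle ends S ∧ e ∈ S)
    (hwidth : ∃ num : V → ℕ, Function.Injective num ∧ ∀ n,
      (Finset.univ.filter
        (fun e : E => (∃ v ∈ ends e, num v < n) ∧ ∃ v ∈ ends e, n ≤ num v)).card ≤ 6)
    (C : Finset E) (hC : IsCycle ends C) :
    ∃ D : Fin 5 → Finset E, (∀ i, IsEven ends (D i)) ∧ C ⊆ D 0 ∧
      ∀ e : E, (Finset.univ.filter fun i : Fin 5 => e ∈ D i).card = 2 := by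
  refine Pool.Agent.Y425.SC6.main ends hloop hdeg (fun e => ?_) hwidth C hC
  obtain ⟨S, h1, h2⟩ := hbr e
  exact ⟨S, h2, h1.2.1⟩

end Pool.Agent.Results.MP_7cf8d2_co.CutwidthSix
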