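import Pool.Agent.Y392.SD.Fin
import Pool.Agent.Y392.FC.Small

set_option autoImplicit false
set_option linter.unusedSectionVars false

/-!
# Five-cycle double covers with a prescribed member

By the Hermitian parity lemma of the starting library (`Pool.Agent.W614.SC.four_of_flows`), flows over
the field with four elements on the components of `G - E(S)` can be rescaled and lifted to four even
sets which cover the edges of `S` once and all other edges twice; so `S` and these four sets form a
5-cycle double cover. For a circuit `C` the condition becomes: `G/E(C)` has a nowhere-zero 4-flow,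
and this is also necessary.
-/

open Finset

namespace Pool.Agent.Results.MP_7cf8d2_co.PrescribedClass

open Pool.Agent.Helper347.Sab
open Pool.Agent.Helper998.Near (Rch)

variable {V E : Type} [Fintype V] [DecidableEq V] [Fintype E] [DecidableEq E]

/-- `S` is a member of some 5-cycle double cover of `G`: there are five even subgraphs such that
every edge lies in exactly two of them, and the first one is `S`. -/
def MemberOfFive (G : MGraph V E) (S : Finset E) : Prop :=
  ∃ D : Fin 5 → Finset E, D 0 = S ∧ (∀ i v, Even (dg G (D i) v)) ∧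
    ∀ e, (univ.filter fun i => e ∈ D i).card = 2

/-- `G/E(S)` has a nowhere-zero 4-flow: two even edge sets of `G` cover all edges outside `S`. -/
def FourFlowOff (G : MGraph V E) (S : Finset E) : Prop :=
  ∃ A B : Finset E, (∀ v, Even (dg G A v)) ∧ (∀ v, Even (dg G B v)) ∧
    ∀ e, e ∉ S → e ∈ A ∨ e ∈ B

/-- `u` and `w` lie in the same component of `G - E(S)`. -/
def Joined (G : MGraph V E) (S : Finset E) (u w : V) : Prop :=
  Relation.ReflTransGen (fun x y => ∃ e, e ∉ S ∧ G.ends e = s(x, y)) u w

/-- With `K` the component of `G - E(S)` containing `v`, the graph `(S ∪ K)/E(S)` has a nowhere-zero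
4-flow: two even edge sets contained in `S ∪ K` cover `K`. -/
def ComponentFlow (G : MGraph V E) (S : Finset E) (v : V) : Prop :=
  ∃ A B : Finset E, (∀ u, Even (dg G A u)) ∧ (∀ u, Even (dg G B u)) ∧
    (∀ f, f ∉ S → f ∈ A ∨ f ∈ B → ∀ u ∈ G.ends f, Joined G S v u) ∧
    ∀ f, f ∉ S → (∀ u ∈ G.ends f, Joined G S v u) → f ∈ A ∨ f ∈ B

/-- `G - V(C)` is 3-edge-colourable. -/
def OffColourable (G : MGraph V E) (C : Finset E) : Prop :=
  ∃ col : E → Fin 3, ∀ (v : V) (e f : E), (∀ w ∈ G.ends e, dg G C w = 0) →
    (∀ w ∈ G.ends f, dg G C w = 0) → v ∈ G.ends e → v ∈ G.ends f → e ≠ f → col e ≠ col f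

/-- The edges with one end in `S` and one end outside `S`. -/
def leaving (G : MGraph V E) (S : Finset V) : Finset E :=
  univ.filter fun e => (∃ u, u ∈ G.ends e ∧ u ∈ S) ∧ ∃ w, w ∈ G.ends e ∧ w ∉ S

/-- `S` is the vertex set of an odd circuit of some 2-factor of `G`: `S` has an odd number of vertices
and, for some set `F` of edges with degree 2 at every vertex, `S` consists of the vertices that can be
reached from one vertex along edges of `F`. -/
def OddCircuitSet (G : MGraph V E) (S : Finset V) : Prop :=
  Odd S.card ∧ ∃ F : Finset E, (∀ v, dg G F v = 2) ∧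
    ∃ v, ∀ u, u ∈ S ↔ Relation.ReflTransGen (fun x y => ∃ e ∈ F, G.ends e = s(x, y)) v u

open Classical in
/-- At most three vertex sets inside `K` that at least five edges leave are vertex sets of odd
circuits of 2-factors of `G`. -/
def FewOddCircuits (G : MGraph V E) (K : Finset V) : Prop :=
  (K.powerset.filter fun S => OddCircuitSet G S ∧ 5 ≤ (leaving G S).card).card ≤ 3

/-- `K` is the vertex set of a component of `G - V(C)`: for some vertex `v` off `C` it consists of
the vertices that can be reached from `v` by walks avoiding `C`. -/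
def IsComponentOff (G : MGraph V E) (C : Finset E) (K : Finset V) : Prop :=
  ∃ v, dg G C v = 0 ∧
    ∀ u, u ∈ K ↔ Relation.ReflTransGen (fun x y => dg G C y = 0 ∧ ∃ e, G.ends e = s(x, y)) v u

/-- The subgraph induced by `K` is 3-edge-colourable. -/
def Colourable (G : MGraph V E) (K : Finset V) : Prop :=
  ∃ col : E → Fin 3, ∀ (v : V) (e f : E), (∀ w ∈ G.ends e, w ∈ K) → (∀ w ∈ G.ends f, w ∈ K) →
    v ∈ G.ends e → v ∈ G.ends f → e ≠ f → col e ≠ col f

theorem rch_joined (G : MGraph V E) (S : Finset E) (u w : V) :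
    Rch G (univ \ S) u w ↔ Joined G S u w := by
  have h : (fun x y => ∃ e ∈ (univ \ S : Finset E), G.ends e = s(x, y)) =
      fun x y => ∃ e, e ∉ S ∧ G.ends e = s(x, y) := by
    ext x y
    simp
  unfold Joined
  show Relation.ReflTransGen (fun x y => ∃ e ∈ (univ \ S : Finset E), G.ends e = s(x, y)) u w ↔ _
  rw [h]

theorem five_of_four (G : MGraph V E) (S : Finset E) (hS : ∀ v, Even (dg G S v))
    (X : Fin 4 → Finset E) (hX : ∀ i v, Even (dg G (X i) v))
    (h1 : ∀ e ∈ S, (univ.filter fun i => e ∈ X i).card = 1)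
    (h2 : ∀ e, e ∉ S → (univ.filter fun i => e ∈ X i).card = 2) : MemberOfFive G S := by
  refine ⟨Fin.cons S X, rfl, ?_, ?_⟩
  · intro i
    refine Fin.cases ?_ (fun j => ?_) i
    · exact hS
    · exact hX j
  · intro e
    rw [card_filter, Fin.sum_univ_succ]
    simp only [Fin.cons_zero, Fin.cons_succ]
    rw [← card_filter]
    by_cases he : e ∈ S
    · rw [if_pos he, h1 e he]
    · rw [if_neg he, h2 e he]

/-- flows on the components of `G - E(S)` -/
theorem member_of_flows (G : MGraph V E) (S : Finset E) (hS : ∀ v, dg G S v = 0 ∨ dg G S v = 2)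
    (h : ∀ v, ComponentFlow G S v) : MemberOfFive G S := by
  obtain ⟨X, hX, h1, h2, _⟩ := Pool.Agent.W614.SC.four_of_flows G S ∅ hS (by
    intro v
    obtain ⟨A, B, hA, hB, h3, h4⟩ := h v
    refine ⟨A, B, hA, hB, ?_, ?_⟩
    · intro f hf hAB u hu
      exact (rch_joined G S v u).2 (h3 f hf hAB u hu)
    · intro f hf _ hr
      exact h4 f hf fun u hu => (rch_joined G S v u).1 (hr u hu))
  refine five_of_four G S ?_ X hX h1 fun e he => h2 e he (notMem_empty e)
  intro v
  rcases hS v with h5 | h5 <;> rw [h5] <;> decide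

/-- circuits: sufficiency -/
theorem member_of_flow (G : MGraph V E) (C : Finset E) (hC : IsCircuit G C)
    (h : FourFlowOff G C) : MemberOfFive G C := by
  obtain ⟨A, B, hA, hB, hAB⟩ := h
  obtain ⟨X, hX, h1, h2⟩ := Pool.Agent.Y392.SD.four_flow G C hC A B hA hB hAB
  exact five_of_four G C (Pool.Agent.Helper998.Near.ev_circuit G C hC) X hX h1 h2

/-- necessity -/
theorem flow_of_member (G : MGraph V E) (S : Finset E) (h : MemberOfFive G S) :
    FourFlowOff G S := by
  obtain ⟨D, h0, hD, h2⟩ := h
  refine ⟨symmDiff (D 1) (D 2), symmDiff (D 1) (D 3), ev_symmDiff (hD 1) (hD 2),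
    ev_symmDiff (hD 1) (hD 3), ?_⟩
  intro e he
  have h3 := h2 e
  rw [card_filter, Fin.sum_univ_five] at h3
  rw [← h0] at he
  rw [if_neg he] at h3
  rw [mem_symmDiff, mem_symmDiff]
  by_cases a1 : e ∈ D 1 <;> by_cases a2 : e ∈ D 2 <;> by_cases a3 : e ∈ D 3 <;>
    by_cases a4 : e ∈ D 4 <;> simp [a1, a2, a3, a4] at h3 ⊢

/-- few odd circuits of 2-factors -/
theorem colourable_of_few (G : MGraph V E) (hG : IsCubic G)
    (hbr : ∀ e : E, ∃ X : Finset E, IsCircuit G X ∧ e ∈ X) (K : Finset V)
    (h : FewOddCircuits G K) : Colourable G K := by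
  classical
  have hl : ∀ S, leaving G S = (Pool.Agent.TH583.FO.orient G).cut S := by
    intro S
    rw [Pool.Agent.TH583.FO.cutM_eq]
    rfl
  have hlt := Pool.Agent.TH583.FO.few_threeM G hG hbr
    ((Pool.Agent.TH583.FO.allOdd (Pool.Agent.TH583.FO.orient G)).filter (fun S => S ⊆ K))
    (fun S hS => ((Pool.Agent.TH583.FO.odd_iff G S).1 (mem_filter.1 hS).1).1) (by
      refine le_trans (Finset.card_le_card ?_) h
      intro S hS
      rw [mem_filter, mem_filter, Pool.Agent.TH583.FO.odd_iff, ← hl] at hS
      exact mem_filter.2 ⟨mem_powerset.2 hS.1.2, hS.1.1, hS.2⟩)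
  obtain ⟨col, hcol⟩ := Pool.Agent.TH583.FO.colourM G hG hbr K hlt
  exact ⟨col, fun v e f he _ hve hvf hef => hcol v (he v hve) e f hve hvf hef⟩

/-- at most eight vertices -/
theorem colourable_of_small (G : MGraph V E) (hG : IsCubic G)
    (hbr : ∀ e : E, ∃ X : Finset E, IsCircuit G X ∧ e ∈ X) (K : Finset V)
    (h : K.card ≤ 8) : Colourable G K := by
  obtain ⟨col, hcol⟩ := Pool.Agent.Y392.FC.small G hG hbr K h
  refine ⟨col, fun v e f he hf hve hvf hef => hcol v e f ?_ ?_ hve hvf hef⟩
  · unfold Pool.Agent.H10R3.SC.ins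
    exact mem_filter.2 ⟨mem_univ _, he⟩
  · unfold Pool.Agent.H10R3.SC.ins
    exact mem_filter.2 ⟨mem_univ _, hf⟩

/-- colouring the components one by one -/
theorem off_of_components (G : MGraph V E) (C : Finset E)
    (h : ∀ K, IsComponentOff G C K → Colourable G K) : OffColourable G C := by
  classical
  obtain ⟨κ, hκ⟩ : ∃ κ : V → Finset V, ∀ v u, u ∈ κ v ↔
      Relation.ReflTransGen (fun x y => dg G C y = 0 ∧ ∃ e, G.ends e = s(x, y)) v u :=
    ⟨fun v => univ.filter (fun u =>
      Relation.ReflTransGen (fun x y => dg G C y = 0 ∧ ∃ e, G.ends e = s(x, y)) v u),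
      fun v u => by rw [mem_filter]; exact ⟨fun h => h.2, fun h => ⟨mem_univ _, h⟩⟩⟩
  have hedge : ∀ e, (∀ w ∈ G.ends e, dg G C w = 0) → ∀ u ∈ G.ends e, ∀ w ∈ G.ends e,
      κ u = κ w := by
    intro e he u hu w hw
    by_cases huw : u = w
    · rw [huw]
    · have h1 : G.ends e = s(u, w) := (Sym2.mem_and_mem_iff huw).1 ⟨hu, hw⟩
      ext x
      rw [hκ, hκ]
      constructor
      · intro hx
        exact Relation.ReflTransGen.head ⟨he u hu, e, by rw [h1, Sym2.eq_swap]⟩ hx
      · intro hx
        exact Relation.ReflTransGen.head ⟨he w hw, e, h1⟩ hx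
  have hcol : ∀ K : Finset V, ∃ col : E → Fin 3, IsComponentOff G C K →
      ∀ (v : V) (e f : E), (∀ w ∈ G.ends e, w ∈ K) → (∀ w ∈ G.ends f, w ∈ K) →
        v ∈ G.ends e → v ∈ G.ends f → e ≠ f → col e ≠ col f := by
    intro K
    by_cases hK : IsComponentOff G C K
    · obtain ⟨col, hc⟩ := h K hK
      exact ⟨col, fun _ => hc⟩
    · exact ⟨fun _ => 0, fun h1 => absurd h1 hK⟩
  choose col hcol using hcol
  have hrep : ∀ e, ∃ u, u ∈ G.ends e := by
    intro e
    obtain ⟨a, b, _, hE⟩ := exists_ends G e
    exact ⟨a, by rw [hE]; exact Sym2.mem_mk_left _ _⟩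
  choose rep hrep using hrep
  refine ⟨fun e => col (κ (rep e)) e, ?_⟩
  intro v e f he hf hve hvf hef
  have h1 : κ (rep e) = κ v := hedge e he _ (hrep e) _ hve
  have h2 : κ (rep f) = κ v := hedge f hf _ (hrep f) _ hvf
  show col (κ (rep e)) e ≠ col (κ (rep f)) f
  rw [h1, h2]
  have hself : ∀ u, u ∈ κ u := fun u => (hκ u u).2 Relation.ReflTransGen.refl
  refine hcol (κ v) ⟨v, he v hve, hκ v⟩ v e f ?_ ?_ hve hvf hef
  · intro w hw
    rw [hedge e he v hve w hw]
    exact hself w
  · intro w hw
    rw [hedge f hf v hvf w hw]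
    exact hself w

/-- Let `G` be a finite loopless multigraph.
(1) Let `S` be an edge set in which all degrees are 0 or 2 (so `S` is the edge set of a union of
disjoint circuits). If for every component `K` of `G - E(S)` the graph `(S ∪ K)/E(S)` has a
nowhere-zero 4-flow then `S` is a member of a 5-cycle double cover.
(2) A circuit `C` is a member of a 5-cycle double cover if and only if `G/E(C)` has a nowhere-zero
4-flow.
(3) If `G` is cubic and `G - V(C)` is 3-edge-colourable then the circuit `C` is a member of a 5-cycle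
double cover.
(4) If `G` is cubic, every edge lies on a circuit, and each component of `G - V(C)` is
3-edge-colourable, or has at most eight vertices, or contains at most three vertex sets of odd
circuits of 2-factors of `G` that at least five edges leave, then the circuit `C` is a member of a
5-cycle double cover. -/
theorem result (G : MGraph V E) :
    (∀ S : Finset E, (∀ v, dg G S v = 0 ∨ dg G S v = 2) → (∀ v, ComponentFlow G S v) →
      MemberOfFive G S) ∧
    (∀ C : Finset E, IsCircuit G C → (MemberOfFive G C ↔ FourFlowOff G C)) ∧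
    (IsCubic G → ∀ C : Finset E, IsCircuit G C → OffColourable G C → MemberOfFive G C) ∧
    (IsCubic G → (∀ e : E, ∃ X : Finset E, IsCircuit G X ∧ e ∈ X) →
      ∀ C : Finset E, IsCircuit G C →
      (∀ K : Finset V, IsComponentOff G C K →
        Colourable G K ∨ K.card ≤ 8 ∨ FewOddCircuits G K) → MemberOfFive G C) := by
  have key3 : IsCubic G → ∀ C : Finset E, IsCircuit G C → OffColourable G C →
      MemberOfFive G C := fun hG C hC h =>
    member_of_flow G C hC
      (Pool.Agent.Results.MP_e720fa_co.ColourableComplement.colour_flow G hG C hC h)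
  refine ⟨fun S hS h => member_of_flows G S hS h, fun C hC => ⟨flow_of_member G C,
    member_of_flow G C hC⟩, key3, fun hG hbr C hC h => ?_⟩
  apply key3 hG C hC
  apply off_of_components
  intro K hK
  rcases h K hK with h1 | h1 | h1
  · exact h1
  · exact colourable_of_small G hG hbr K h1
  · exact colourable_of_few G hG hbr K h1

end Pool.Agent.Results.MP_7cf8d2_co.PrescribedClass
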